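import Pool.Agent.helper64.NQ.Spec

/-!
# Project nq (MP_baa4d7_al): row INR
-/

set_option autoImplicit false

namespace Pool.Agent.NQ

open Pool.Agent.helper58.DC Pool.Agent.DI Pool.Agent.DR

theorem INR (hB13 : B13_stmt) : INR_stmt := by
  intro Γ _ _ p Γ₀ L S K hL hS hK ψ D
  obtain ⟨h1, h2, h3, h4, h5, h6⟩ := hB13 Γ₀ Γ p Γ₀.subtype Γ₀.subtype_injective
    (L.subgroupOf Γ₀)
  rw [Subgroup.map_subgroupOf_eq_of_le hL] at h2 h3 h5
  have hval : ∀ (φ : Γ₀ → ℂ) (x : Γ₀), ext0 Γ₀.subtype φ (x : Γ) = φ x := fun φ x =>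
    (h1 φ).1 x
  have key : ∀ φ : Γ₀ → ℂ,
      (φ ∈ IrrOn (L.subgroupOf Γ₀) ∧
        (∃ e : ℕ, ∀ x ∈ K.subgroupOf Γ₀, φ x = e * (fun x : Γ₀ => ψ x) x) ∧
        (∀ s ∈ S.subgroupOf Γ₀, funMap (MulAut.conj s) φ = φ) ∧
        Defect p (L.subgroupOf Γ₀) φ D) ↔
      (ext0 Γ₀.subtype φ ∈ IrrOn L ∧
        (∃ e : ℕ, ∀ x ∈ K, ext0 Γ₀.subtype φ x = e * ψ x) ∧
        (∀ s ∈ S, funMap (MulAut.conj s) (ext0 Γ₀.subtype φ) = ext0 Γ₀.subtype φ) ∧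
        Defect p L (ext0 Γ₀.subtype φ) D) := by
    intro φ
    have hinv : ∀ s : Γ₀, funMap (MulAut.conj (s : Γ)) (ext0 Γ₀.subtype φ) =
        ext0 Γ₀.subtype (funMap (MulAut.conj s) φ) := by
      intro s
      refine h6 φ (MulAut.conj s) (s : Γ) ?_
      intro k
      rfl
    refine and_congr (h2 φ) (and_congr ?_ (and_congr ?_ (h5 φ D)))
    · constructor
      · rintro ⟨e, he⟩
        refine ⟨e, fun x hx => ?_⟩
        have h7 := he ⟨x, hK hx⟩ (Subgroup.mem_subgroupOf.2 hx)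
        rw [← hval φ ⟨x, hK hx⟩] at h7
        exact h7
      · rintro ⟨e, he⟩
        refine ⟨e, fun x hx => ?_⟩
        have h7 := he (x : Γ) (Subgroup.mem_subgroupOf.1 hx)
        rw [hval] at h7
        exact h7
    · constructor
      · intro h s hs
        have h7 := h ⟨s, hS hs⟩ (Subgroup.mem_subgroupOf.2 hs)
        have h8 := hinv ⟨s, hS hs⟩
        rw [h7] at h8
        exact h8
      · intro h s hs
        have h7 := h (s : Γ) (Subgroup.mem_subgroupOf.1 hs)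
        rw [hinv s] at h7
        exact h4 _ _ h7
  unfold inn
  refine Nat.card_congr (Equiv.ofBijective
    (fun φ => (⟨ext0 Γ₀.subtype φ.1, (key φ.1).1 φ.2⟩ : {φ : Γ → ℂ // φ ∈ IrrOn L ∧
      (∃ e : ℕ, ∀ x ∈ K, φ x = e * ψ x) ∧
      (∀ s ∈ S, funMap (MulAut.conj s) φ = φ) ∧ Defect p L φ D})) ⟨?_, ?_⟩)
  · intro φ φ' h
    exact Subtype.ext (h4 _ _ (congrArg Subtype.val h))
  · rintro ⟨φ, hφ⟩
    obtain ⟨φ', rfl⟩ := h3 φ hφ.1
    exact ⟨⟨φ', (key φ').2 hφ⟩, rfl⟩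

end Pool.Agent.NQ
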